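import Pool.Agent.NTW.StmtsD

set_option autoImplicit false

open Matrix

namespace Pool.Agent.NTW.H2

/-- the full orbital limit set of `Γ`, as a set of unit vectors in the boundary of the cone
(verbatim the set that occurs in S14139) -/
def Lam {n : ℕ} (C : Set (Fin n → ℝ)) (Γ : Subgroup (GL (Fin n) ℝ)) : Set (Fin n → ℝ) :=
  {u : Fin n → ℝ | ‖u‖ = 1 ∧ u ∈ closure C ∧ u ∉ C ∧ ∃ x ∈ C,
    u ∈ closure {z : Fin n → ℝ | ∃ g ∈ Γ,
      z = ‖(g : Matrix (Fin n) (Fin n) ℝ) *ᵥ x‖⁻¹ • ((g : Matrix (Fin n) (Fin n) ℝ) *ᵥ x)}}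

/-- the open simplicial cone over the open simplex with vertices `v` -/
def OpenSimplex {n m : ℕ} (v : Fin m → (Fin n → ℝ)) : Set (Fin n → ℝ) :=
  {y : Fin n → ℝ | ∃ c : Fin m → ℝ, (∀ i, 0 < c i) ∧ y = ∑ i, c i • v i}

/-- `v` spans a properly embedded simplex of the domain -/
def ProperlyEmbedded {n m : ℕ} (C : Set (Fin n → ℝ)) (v : Fin m → (Fin n → ℝ)) : Prop :=
  LinearIndependent ℝ v ∧ OpenSimplex v ⊆ C ∧ closure (OpenSimplex v) ∩ C ⊆ OpenSimplex v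

/-- `v` spans a properly embedded simplex of the domain all of whose vertices are positive
multiples of points of the full orbital limit set -/
def InCore {n m : ℕ} (C : Set (Fin n → ℝ)) (Γ : Subgroup (GL (Fin n) ℝ))
    (v : Fin m → (Fin n → ℝ)) : Prop :=
  ProperlyEmbedded C v ∧ ∀ i, ∃ t : ℝ, 0 < t ∧ ∃ u ∈ Lam C Γ, v i = t • u

/-- the open face of the closed cone containing `x`: all `y` with `ε y ≤ x` and `ε x ≤ y` for some
`ε > 0`, in the order defined by the closed cone -/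
def OpenFace {n : ℕ} (C : Set (Fin n → ℝ)) (x : Fin n → ℝ) : Set (Fin n → ℝ) :=
  {y | ∃ ε : ℝ, 0 < ε ∧ x - ε • y ∈ closure C ∧ y - ε • x ∈ closure C}

/-- the linear dimension of the open face of the domain which contains the open edge with vertices
`v i`, `v j`; it is `2` if this open edge is an open face of the domain -/
noncomputable def edgeDim {n m : ℕ} (C : Set (Fin n → ℝ)) (v : Fin m → (Fin n → ℝ))
    (i j : Fin m) : ℕ :=
  Module.finrank ℝ (Submodule.span ℝ (OpenFace C (v i + v j)))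

/-- the conclusion of Q1 for the simplex spanned by `v`: it is properly embedded, maximal, and
preserved by a subgroup of `Γ` isomorphic to `ℤ^k` -/
def Q1Conclusion {n : ℕ} (C : Set (Fin n → ℝ)) (Γ : Subgroup (GL (Fin n) ℝ)) (k : ℕ)
    (v : Fin (k + 1) → (Fin n → ℝ)) : Prop :=
  ProperlyEmbedded C v ∧
    (∀ (m : ℕ) (w : Fin (m + 1) → (Fin n → ℝ)), ProperlyEmbedded C w →
      OpenSimplex v ⊆ OpenSimplex w → OpenSimplex w ⊆ OpenSimplex v) ∧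
    ∃ A : Subgroup (GL (Fin n) ℝ), A ≤ Γ ∧
      Nonempty (↥A ≃* Multiplicative (Fin k → ℤ)) ∧
      ∀ a ∈ A, ∀ y ∈ OpenSimplex v, (a : Matrix (Fin n) (Fin n) ℝ) *ᵥ y ∈ OpenSimplex v

open Pool.Agent.PFS in
theorem isPES_iff {n m : ℕ} {C : Set (Fin n → ℝ)} {Γ : Subgroup (GL (Fin n) ℝ)} (h : CC C Γ)
    (v : Fin m → (Fin n → ℝ)) : IsPES C Γ v ↔ InCore C Γ v := by
  constructor
  · rintro ⟨h1, h2⟩
    have hind := H60.lin n C h.toPCone (Fin m) v h1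
    exact ⟨⟨hind, (H32.frz n C h.toPCone (Fin m) v hind).mp h1⟩, h2⟩
  · rintro ⟨⟨hind, h1⟩, h2⟩
    exact ⟨(H32.frz n C h.toPCone (Fin m) v hind).mpr h1, h2⟩

theorem main (ntf : Pool.Agent.NTW.NtfStmt) :
  ∀ (n : ℕ) (C : Set (Fin n → ℝ)) (Γ : Subgroup (GL (Fin n) ℝ)),
    IsOpen C → Convex ℝ C → C.Nonempty → (0 : Fin n → ℝ) ∉ C →
    (∀ x ∈ C, ∀ t : ℝ, 0 < t → t • x ∈ C) →
    (∀ v : Fin n → ℝ, v ∈ closure C → -v ∈ closure C → v = 0) →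
    DiscreteTopology Γ →
    (∀ g ∈ Γ, |Matrix.det (g : Matrix (Fin n) (Fin n) ℝ)| = 1 ∧
        ∀ x ∈ C, (g : Matrix (Fin n) (Fin n) ℝ) *ᵥ x ∈ C) →
    (∃ y : Fin n → ℝ, y ∈ C ∧ ∃ t : ℝ, 0 < t ∧ ∃ w ∈ convexHull ℝ (Lam C Γ), y = t • w) →
    (∃ K : Set (Fin n → ℝ), IsCompact K ∧ K ⊆ C ∧
      ∀ y : Fin n → ℝ, (y ∈ C ∧ ∃ t : ℝ, 0 < t ∧ ∃ w ∈ convexHull ℝ (Lam C Γ), y = t • w) →
        ∃ g ∈ Γ, ∃ t : ℝ, 0 < t ∧ t • ((g : Matrix (Fin n) (Fin n) ℝ) *ᵥ y) ∈ K) →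
    (¬ ∃ S : Finset ↥Γ, Subgroup.closure (S : Set ↥Γ) = ⊤ ∧ ∃ δ : ℕ,
        ∀ x y z w : ↥Γ,
          (SimpleGraph.fromRel fun a b : ↥Γ => a⁻¹ * b ∈ S).dist x y
            + (SimpleGraph.fromRel fun a b : ↥Γ => a⁻¹ * b ∈ S).dist z w
          ≤ max ((SimpleGraph.fromRel fun a b : ↥Γ => a⁻¹ * b ∈ S).dist x z
                  + (SimpleGraph.fromRel fun a b : ↥Γ => a⁻¹ * b ∈ S).dist y w)
                ((SimpleGraph.fromRel fun a b : ↥Γ => a⁻¹ * b ∈ S).dist x w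
                  + (SimpleGraph.fromRel fun a b : ↥Γ => a⁻¹ * b ∈ S).dist y z)
            + 2 * δ) →
    ∃ k : ℕ, 2 ≤ k ∧
      (∃ v : Fin (k + 1) → (Fin n → ℝ), InCore C Γ v) ∧
      (∀ (m : ℕ) (w : Fin m → (Fin n → ℝ)), InCore C Γ w → m ≤ k + 1) ∧
      ((∀ w : Fin (k + 1) → (Fin n → ℝ), InCore C Γ w → ∀ i j l, i ≠ j → i ≠ l → j ≠ l →
          ¬ (3 ≤ edgeDim C w i j ∧ 3 ≤ edgeDim C w i l ∧ edgeDim C w i l = edgeDim C w j l)) →
        ∃ v : Fin (k + 1) → (Fin n → ℝ), InCore C Γ v ∧ Q1Conclusion C Γ k v) := by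
  intro n C Γ h1 h2 h3 h4 h5 h6 h7 h8 h9 h10 hyp
  have h : Pool.Agent.PFS.CC C Γ :=
    { isOpen := h1
      convex := h2
      nonempty := h3
      zero := h4
      smul := h5
      salient := h6
      disc := h7
      det := fun g hg => (h8 g hg).1
      mem := fun g hg => (h8 g hg).2
      core := h9
      cocompact := by
        obtain ⟨K, hK1, hK2, hK3⟩ := h10
        exact ⟨K, hK1, hK2, fun y hy hy' => hK3 y ⟨hy, hy'⟩⟩ }
  have htri : ∃ w : Fin 3 → (Fin n → ℝ), Pool.Agent.PFS.IsPES C Γ w := by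
    by_contra hcon
    exact hyp (Pool.Agent.PFS.H87.hypFinal n C Γ h hcon)
  obtain ⟨k, hk, hex, hmax⟩ := Pool.Agent.PFS.H73.mxk Pool.Agent.PFS.H60.lin n C Γ h htri
  refine ⟨k, hk, ?_, ?_, ?_⟩
  · obtain ⟨v, hv⟩ := hex
    exact ⟨v, (isPES_iff h v).mp hv⟩
  · intro m w hw
    exact hmax m w ((isPES_iff h w).mpr hw)
  · intro hnit
    have hnit' : Pool.Agent.NTW.NIT C Γ (k + 1) := by
      intro w hw i j l hij hil hjl h3 h3' heq
      exact hnit w ((isPES_iff h w).mp hw) i j l hij hil hjl ⟨h3, h3', heq⟩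
    obtain ⟨v, g1, c1, c2, c3, c4, c5⟩ := ntf n C Γ h k hk hmax hex hnit'
    exact ⟨v, (isPES_iff h v).mp g1,
      ⟨⟨c1, c2, c3⟩, fun m w hw hsub => c4 m w hw.1 hw.2.1 hw.2.2 hsub, c5⟩⟩

end Pool.Agent.NTW.H2
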