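import Pool.Agent.Helper2_NTW.Fin
import Pool.Agent.Helper27_NTS.NNG
import Pool.Agent.Helper56_NTS.EXV
import Pool.Agent.Helper95_NTS.NBD
import Pool.Agent.Helper49_NTS.TWO
import Pool.Agent.Helper92_NTS.EDC
import Pool.Agent.Helper27_NTW.FCS
import Pool.Agent.Helper21_NTW.UOP
import Pool.Agent.Helper10_NTW.PBF
import Pool.Agent.Helper23_NTW.PAC
import Pool.Agent.Helper83_NTW.FSR
import Pool.Agent.Helper49_NTW.PBL
import Pool.Agent.Helper27_NTW.ZFF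
import Pool.Agent.Helper47_NTW.EXC
import Pool.Agent.Helper58_NTW.TAU
import Pool.Agent.Helper90_NTW.BXT
import Pool.Agent.Helper44_NTW.EXR
import Pool.Agent.Helper65_NTW.MVG
import Pool.Agent.Helper25_NTW.TBX
import Pool.Agent.Helper91_NTW.TCL
import Pool.Agent.Helper31_NTW.DCP
import Pool.Agent.Helper19_NTW.EIW
import Pool.Agent.Helper81_NTW.TWP
import Pool.Agent.Helper38_NTW.CHW
import Pool.Agent.Helper87_NTW.CN2
import Pool.Agent.Helper63_NTW.ALW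
import Pool.Agent.Helper20_NTW.PTP
import Pool.Agent.Helper65_NTW.WLM
import Pool.Agent.Helper85_NTW.LM1
import Pool.Agent.Helper44_NTW.HIN
import Pool.Agent.Helper10_NTW.HSK
import Pool.Agent.Helper67_NTW.SWU
import Pool.Agent.Helper86_NTW.BLA
import Pool.Agent.Helper8_NTW.HCA
import Pool.Agent.Helper94_NTW.CNT
import Pool.Agent.Helper47_NTW.HFB
import Pool.Agent.Helper63_NTW.HOT
import Pool.Agent.Helper15_NTW.HB1
import Pool.Agent.Helper92_NTW.HCM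
import Pool.Agent.Helper68_NTW.HB2
import Pool.Agent.Helper58_NTW.HB3
import Pool.Agent.Helper16_NTW.HSC
import Pool.Agent.Helper27_NTW.LBW
import Pool.Agent.Helper28_NTW.BLW
import Pool.Agent.Helper41_NTW.SLD
import Pool.Agent.Helper33_NTW.ZPW
import Pool.Agent.Helper65_NTW.CNE
import Pool.Agent.Helper34_NTW.NRC
import Pool.Agent.Helper86_NTW.CMW
import Pool.Agent.Helper34_NTW.PIG
import Pool.Agent.Helper55_NTW.NAL
import Pool.Agent.Helper17_NTW.FNT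
import Pool.Agent.Helper16_NTW.RET
import Pool.Agent.Helper75_NTW.STW
import Pool.Agent.Helper65_NTW.ZBW
import Pool.Agent.Helper75_NTW.BPW
import Pool.Agent.Helper91_NTW.SEW
import Pool.Agent.Helper7_NTW.PZW
import Pool.Agent.Helper25_NTW.NTF

set_option autoImplicit false

namespace Pool.Agent.NTW.H2

open Pool.Agent.NTS

theorem fNNG : Pool.Agent.NTS.NngStmt :=
  Pool.Agent.NTS.H27.nng
theorem fEXV : Pool.Agent.NTS.ExvStmt :=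
  Pool.Agent.NTS.H56.exv fNNG
theorem fNBD : Pool.Agent.NTS.NbdStmt :=
  Pool.Agent.NTS.H95.nbd fNNG
theorem fTWO : Pool.Agent.NTS.TwoStmt :=
  Pool.Agent.NTS.H49.two fEXV
theorem fEDC : Pool.Agent.NTS.EdcStmt :=
  Pool.Agent.NTS.H92.edc
theorem fFCS : Pool.Agent.NTW.FcsStmt :=
  Pool.Agent.NTW.H27.fcs
theorem fUOP : Pool.Agent.NTW.UopStmt :=
  Pool.Agent.NTW.H21.uop
theorem fPBF : Pool.Agent.NTW.PbfStmt :=
  Pool.Agent.NTW.H10.pbf fFCS fNNG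
theorem fPAC : Pool.Agent.NTW.PacStmt :=
  Pool.Agent.NTW.H23.pac
theorem fFSR : Pool.Agent.NTW.FsrStmt :=
  Pool.Agent.NTW.H83.fsr fFCS
theorem fPBL : Pool.Agent.NTW.PblStmt :=
  Pool.Agent.NTW.H49.pbl
theorem fZFF : Pool.Agent.NTW.ZffStmt :=
  Pool.Agent.NTW.H27.zff fFCS fUOP fPBF fPAC fPBL
theorem fEXC : Pool.Agent.NTW.ExcStmt :=
  Pool.Agent.NTW.H47.exc fPBF fZFF
theorem fTAU : Pool.Agent.NTW.TauStmt :=
  Pool.Agent.NTW.H58.tau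
theorem fBXT : Pool.Agent.NTW.BxtStmt :=
  Pool.Agent.NTW.H90.bxt fPBF
theorem fEXR : Pool.Agent.NTW.ExrStmt :=
  Pool.Agent.NTW.H44.exr fNNG fFCS fPBF fBXT
theorem fMVG : Pool.Agent.NTW.MvgStmt :=
  Pool.Agent.NTW.H65.mvg fFCS fPBF fBXT
theorem fTBX : Pool.Agent.NTW.TbxStmt :=
  Pool.Agent.NTW.H25.tbx fPBF fPAC
theorem fTCL : Pool.Agent.NTW.TclStmt :=
  Pool.Agent.NTW.H91.tcl fPBF fPBL fTBX
theorem fDCP : Pool.Agent.NTW.DcpStmt :=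
  Pool.Agent.NTW.H31.dcp fNNG fPBF fTBX
theorem fEIW : Pool.Agent.NTW.EiwStmt :=
  Pool.Agent.NTW.H19.eiw fEXV fEXR fTBX fDCP
theorem fTWP : Pool.Agent.NTW.TwpStmt :=
  Pool.Agent.NTW.H81.twp fNNG fFCS fBXT fTBX
theorem fCHW : Pool.Agent.NTW.ChwStmt :=
  Pool.Agent.NTW.H38.chw fFCS fPBF fBXT fTBX fDCP
theorem fCN2 : Pool.Agent.NTW.Cn2Stmt :=
  Pool.Agent.NTW.H87.cn2
theorem fALW : Pool.Agent.NTW.AlwStmt :=
  Pool.Agent.NTW.H63.alw fDCP fEIW fTWP fCHW fCN2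
theorem fPTP : Pool.Agent.NTW.PtpStmt :=
  Pool.Agent.NTW.H20.ptp fDCP fEIW fCHW
theorem fWLM : Pool.Agent.NTW.WlmStmt :=
  Pool.Agent.NTW.H65.wlm fTCL fDCP
theorem fLM1 : Pool.Agent.NTW.Lm1Stmt :=
  Pool.Agent.NTW.H85.lm1 fNBD fTWO fEDC
theorem fHIN : Pool.Agent.NTW.HinStmt :=
  Pool.Agent.NTW.H44.hin fDCP fEIW
theorem fHSK : Pool.Agent.NTW.HskStmt :=
  Pool.Agent.NTW.H10.hsk fHIN fALW
theorem fSWU : Pool.Agent.NTW.SwuStmt :=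
  Pool.Agent.NTW.H67.swu fDCP fEIW fTWP fCHW fCN2 fTBX
theorem fBLA : Pool.Agent.NTW.BlaStmt :=
  Pool.Agent.NTW.H86.bla fDCP
theorem fHCA : Pool.Agent.NTW.HcaStmt :=
  Pool.Agent.NTW.H8.hca fFCS fPBF fEXR fMVG fTBX fDCP fEIW fLM1 fSWU fBLA
theorem fCNT : Pool.Agent.NTW.CntStmt :=
  Pool.Agent.NTW.H94.cnt
theorem fHFB : Pool.Agent.NTW.HfbStmt :=
  Pool.Agent.NTW.H47.hfb fDCP fTWP fCNT
theorem fHOT : Pool.Agent.NTW.HotStmt :=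
  Pool.Agent.NTW.H63.hot fDCP
theorem fHB1 : Pool.Agent.NTW.Hb1Stmt :=
  Pool.Agent.NTW.H15.hb1 fFCS fDCP fHFB fHOT
theorem fHCM : Pool.Agent.NTW.HcmStmt :=
  Pool.Agent.NTW.H92.hcm fDCP
theorem fHB2 : Pool.Agent.NTW.Hb2Stmt :=
  Pool.Agent.NTW.H68.hb2 fDCP fHCM
theorem fHB3 : Pool.Agent.NTW.Hb3Stmt :=
  Pool.Agent.NTW.H58.hb3 fNNG fFCS fPBF fDCP fEIW fLM1 fHFB fHOT fHB1 fHB2
theorem fHSC : Pool.Agent.NTW.HscStmt :=
  Pool.Agent.NTW.H16.hsc fHSK fHB3 fHCA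
theorem fLBW : Pool.Agent.NTW.LbwStmt :=
  Pool.Agent.NTW.H27.lbw fDCP
theorem fBLW : Pool.Agent.NTW.BlwStmt :=
  Pool.Agent.NTW.H28.blw
theorem fSLD : Pool.Agent.NTW.SldStmt :=
  Pool.Agent.NTW.H41.sld
theorem fZPW : Pool.Agent.NTW.ZpwStmt :=
  Pool.Agent.NTW.H33.zpw fPAC fTBX fDCP fPTP fWLM fLBW
theorem fCNE : Pool.Agent.NTW.CneStmt :=
  Pool.Agent.NTW.H65.cne
theorem fNRC : Pool.Agent.NTW.NrcStmt :=
  Pool.Agent.NTW.H34.nrc fCNE fBLW fSLD fZPW fHSC fDCP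
theorem fCMW : Pool.Agent.NTW.CmwStmt :=
  Pool.Agent.NTW.H86.cmw fDCP fLBW
theorem fPIG : Pool.Agent.NTW.PigStmt :=
  Pool.Agent.NTW.H34.pig fTBX fTCL
theorem fNAL : Pool.Agent.NTW.NalStmt :=
  Pool.Agent.NTW.H55.nal fEIW
theorem fFNT : Pool.Agent.NTW.FntStmt :=
  Pool.Agent.NTW.H17.fnt
theorem fRET : Pool.Agent.NTW.RetStmt :=
  Pool.Agent.NTW.H16.ret fPAC fFSR fTBX fALW fNRC fCMW fCNE fPIG fNAL fFNT
theorem fSTW : Pool.Agent.NTW.StwStmt :=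
  Pool.Agent.NTW.H75.stw fRET
theorem fZBW : Pool.Agent.NTW.ZbwStmt :=
  Pool.Agent.NTW.H65.zbw fPAC fFSR fTBX fALW fWLM fSTW
theorem fBPW : Pool.Agent.NTW.BpwStmt :=
  Pool.Agent.NTW.H75.bpw fFCS fTBX fBXT fEXR fEIW fDCP fCHW
theorem fSEW : Pool.Agent.NTW.SewStmt :=
  Pool.Agent.NTW.H91.sew fTBX fBXT fEIW fDCP
theorem fPZW : Pool.Agent.NTW.PzwStmt :=
  Pool.Agent.NTW.H7.pzw fEIW fZBW fBPW fSEW
theorem fNTF : Pool.Agent.NTW.NtfStmt :=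
  Pool.Agent.NTW.H25.ntf fEXC fTAU fPZW

end Pool.Agent.NTW.H2
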